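import Pool.Agent.K4H65.CN.Sm
import Pool.Agent.K4H65.CN.Conn
import Pool.Agent.K4H65.CN.SmA
import Pool.Agent.K4H65.CN.Van
import Pool.Agent.K4H65.CN.Ex
import Pool.Agent.K4H65.CN.Der
import Pool.Agent.K4H65.CN.Num
import Pool.Agent.K4H65.CN.Trd

/-!
# A Kobayashi hyperbolic projective surface with a curve of negative conormal number

The surface is `X = {B₀⁴ + B₁⁴ + B₂⁴ = 0, B₀ A(x) + 2 B₁ G(x) = 0}` in `P² × P²`, with
`A = x₀²⁴⁰ x₂¹⁶ + x₁²⁵⁶ + x₀¹⁶ x₁²⁴⁰` and `G = x₀²⁵⁶ + x₁²⁵⁶ + γ x₂²⁵⁶`, and the curve `Z` is the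
fibre of the first projection over `(1 : 0 : ζ)`, `ζ⁴ = -1`, i.e. the plane curve `A = 0`. Its
normalization is the Fermat curve of degree 16, of genus 105, and it has 16 branches of
multiplicity 15 and no other singular branch, so `T*_Z X · T*_X X = 208 - 224 = -16`.
-/

set_option autoImplicit false

namespace Pool.Agent.Results.MP_225e67_ag.NegativeConormalNumber

open Pool.Agent.TH144.CN Pool.Agent.K4H65.CN

theorem result :
    ∃ (X Z : ClosedSet) (K : Type) (_ : Field K) (_ : Algebra ℂ K) (b x : Fin 3 → K)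
      (D : Derivation ℂ K K),
      X.SmoothSurface ∧ X.Connected ∧ KobayashiHyperbolic X.points ∧
      Z.points ⊆ X.points ∧ Z.FunctionField K b x ∧ Algebra.trdeg ℂ K = 1 ∧
      D ≠ 0 ∧ indexNumber b x D = -16 ∧ conormalNumber b x D = -16 := by
  obtain ⟨S, hS, hSm⟩ := smooth_alg
  obtain ⟨γ, hγ⟩ := (hS.union (Set.finite_singleton (0 : ℂ))).exists_notMem
  have hγS : γ ∉ S := fun h => hγ (Or.inl h)
  have hγ0 : γ ≠ 0 := fun h => hγ (Or.inr h)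
  have hsm : SmAlg γ := hSm γ hγS
  obtain ⟨ζ, hζ⟩ : ∃ ζ : ℂ, ζ ^ 4 = -1 := IsAlgClosed.exists_pow_nat_eq _ (by norm_num)
  obtain ⟨K, iF, iA, u, t, hK⟩ := exists_fer
  obtain ⟨D, hDu, hDt⟩ := exists_der hK
  refine ⟨Xs γ, Zs ζ hζ, K, iF, iA, zb K ζ, zx u t, D, smooth hsm, connected hγ0 hsm,
    Xs_hyperbolic hγ0, ?_, Zs_field hK ζ hζ, hK.trdeg_eq, ?_, index_eq hK ζ hDu hDt⟩
  · rintro _ ⟨b, x, hb, hx, hbx, rfl⟩
    refine ⟨b, x, hb, hx, ?_, rfl⟩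
    obtain ⟨_, _, h1, h2, h3⟩ := mem_Zs.1 hbx
    refine mem_Xs.2 ⟨hb, hx, ?_, ?_⟩
    · rw [h1, h2]
      have : (algebraMap ℂ ℂ ζ) = ζ := rfl
      rw [this]
      linear_combination b 0 ^ 4 * hζ
    · have h3' : Af x = 0 := h3
      rw [h1, h3']
      ring
  · rintro rfl
    rw [Derivation.zero_apply] at hDu
    exact pow_ne_zero 15 hK.t_ne_zero hDu.symm

end Pool.Agent.Results.MP_225e67_ag.NegativeConormalNumber
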